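import Pool.Agent.Q138.PS.UN
import Pool.Agent.Q259.AS.Win
import Pool.Agent.W93.PG7

/-!
# Goldbach representations in primorial intervals: the even numbers near `α P(k)`

Let `q ≥ 2`. Outside a set of real numbers of Hausdorff dimension at most `q / (q + 1 / (q 2 ^ (q - 1)))` (that is
`8 / 9` for `q = 2`) every `α > 0` has the following property: for ALL integral polynomials `P` of degree `q` with positive leading
coefficient and coefficients of size at most `N ^ η`, for all but `N / (log N) ^ U` of the `k ≤ N`, all the even numbers `m` near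
`α P(k)` have the property of the question, with the expected number of representations.

Definitions used (in `Pool.Agent.H560R3.GB`): `C₂`: the twin prime constant `∏_{p > 2} (1 - 1 / (p - 1) ^ 2)`; `sing m`: the
singular series `2 C₂ ∏_{p ∣ m, p > 2} (p - 1) / (p - 2)`.
-/

set_option autoImplicit false

namespace Pool.Agent.Results.MP_484fb8_nt.AlongRealMultiples

open Filter Finset Pool.Agent.H560R3.GB
open Pool.Agent.Q138.PS
open Pool.Agent.Q259.AS (eng_windows)

/-- `#(n)`: the product of the first `n` primes. -/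
noncomputable def P (n : ℕ) : ℕ := ∏ i ∈ range n, Nat.nth Nat.Prime i

/-- The number of primes `p` in the `n`-th primorial interval such that `m - p` is a prime which lies in the
`n`-th or in the `n + 1`-st primorial interval. -/
noncomputable def R (n m : ℕ) : ℕ :=
  ((Icc (P (n - 1) + 1) (P n + 1)).filter
    (fun p => p.Prime ∧ (m - p).Prime ∧ P (n - 1) + 1 ≤ m - p ∧ m - p ≤ P (n + 1) + 1)).card

/-- If `m` belongs to the `n + 1`-st primorial interval (`n ≥ 1`), then `m = p + q` where `p` is a prime in the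
`n`-th primorial interval and `q` is a prime in the `n`-th or in the `n + 1`-st one; moreover, up to a relative
error of at most `ε`, the number of these representations is `sing m * #(n) / log ^ 2 m`. -/
def Holds (ε : ℝ) (m : ℕ) : Prop :=
  ∀ n : ℕ, 1 ≤ n → P n + 1 ≤ m → m ≤ P (n + 1) + 1 →
    (∃ p q : ℕ, p.Prime ∧ q.Prime ∧ m = p + q ∧ P (n - 1) + 1 ≤ p ∧ p ≤ P n + 1 ∧ P (n - 1) + 1 ≤ q ∧ q ≤ P (n + 1) + 1) ∧
    |(R n m : ℝ) - sing m * P n / Real.log m ^ 2| ≤ ε * (sing m * P n / Real.log m ^ 2)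

/-- All the positive even numbers `m` with `|m - t| ≤ log t ^ A` have the property `Holds ε`. -/
def Good (ε : ℝ) (A : ℕ) (t : ℝ) : Prop :=
  ∀ m : ℕ, 0 < m → Even m → |(m : ℝ) - t| ≤ Real.log t ^ A → Holds ε m

open Classical in
/-- the number of the `1 ≤ k ≤ N` for which `α Q(k)` is not `Good` -/
noncomputable def exceptions (ε : ℝ) (A : ℕ) (α : ℝ) (Q : Polynomial ℤ) (N : ℕ) : ℕ :=
  ((Icc 1 N).filter fun k : ℕ => ¬ Good ε A (α * ((Q.eval (k : ℤ) : ℤ) : ℝ))).card

lemma holds_of (ε : ℝ) (hε : 0 < ε) : ∃ m₀ : ℕ, ∀ m : ℕ, m₀ ≤ m →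
    Pool.Agent.W93.PG.WinP (min ε (1 / 2) / 4) 2 m → Holds ε m := by
  obtain ⟨m₀, h0⟩ := Pool.Agent.W93.PG.reps_of_win (min ε (1 / 2)) (lt_min hε (by norm_num))
    ((min_le_right _ _).trans (by norm_num))
  refine ⟨m₀ + 3, ?_⟩
  intro m hm hwin n hn h2 h3
  have h4 := h0 m (by omega) hwin n hn h2 h3
  have hm0 : (3 : ℝ) ≤ m := by exact_mod_cast (by omega : 3 ≤ m)
  have hlog : 0 < Real.log m := Real.log_pos (by linarith)
  have hs := Pool.Agent.W93.GB.one_le_sing m
  have hP : (0 : ℝ) < P n := by exact_mod_cast Pool.Agent.W93.PG.PR_pos n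
  have hmain : 0 < sing m * P n / Real.log m ^ 2 := by positivity
  have hR : R n m = Pool.Agent.W93.PG.reps n m := rfl
  have hPR : Pool.Agent.W93.PG.PR n = P n := rfl
  rw [← hR, hPR] at h4
  have h5 : |(R n m : ℝ) - sing m * P n / Real.log m ^ 2| ≤ ε * (sing m * P n / Real.log m ^ 2) :=
    h4.trans (mul_le_mul_of_nonneg_right (min_le_left _ _) hmain.le)
  have h6 : |(R n m : ℝ) - sing m * P n / Real.log m ^ 2| ≤ 1 / 2 * (sing m * P n / Real.log m ^ 2) :=
    h4.trans (mul_le_mul_of_nonneg_right (min_le_right _ _) hmain.le)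
  refine ⟨?_, h5⟩
  have h7 : (0 : ℝ) < R n m := by
    rw [abs_le] at h6
    linarith [h6.1]
  have h8 : 0 < R n m := by exact_mod_cast h7
  unfold R at h8
  rw [card_pos] at h8
  obtain ⟨p, hp⟩ := h8
  rw [mem_filter, mem_Icc] at hp
  obtain ⟨⟨p1, p2⟩, p3, p4, p5, p6⟩ := hp
  exact ⟨p, m - p, p3, p4, by have := p4.pos; omega, p1, p2, p5, p6⟩

/-- the exceptional even numbers -/
def Bd (m₀ : ℕ) (ε : ℝ) : Set ℤ := {n : ℤ | 0 < n ∧ 2 ∣ n ∧ ¬ (m₀ ≤ n.toNat ∧ Pool.Agent.W93.PG.WinP ε 2 n.toNat)}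

/-- **Theorem.** Let `q ≥ 2`. There is a set `E` of Hausdorff dimension at most `q / (q + 1 / (q 2 ^ (q - 1)))` such that for all
`α > 0` outside `E`, all `ε > 0` and all `A, U` there is `η > 0` such that for all large `N` and ALL `Q ∈ ℤ[X]` of degree `q`
with positive leading coefficient and coefficients of size at most `N ^ η`: for all but at most `N / (log N) ^ U` of the `k ≤ N`
every positive even number `m` with `|m - α Q(k)| ≤ log (α Q(k)) ^ A` has the property of the question, and the number of the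
representations is the expected one up to a relative error of `ε`. -/
theorem result (q : ℕ) (hq : 2 ≤ q) :
    ∃ E : Set ℝ, dimH E ≤ ENNReal.ofReal (q / (q + 1 / ((q : ℝ) * 2 ^ (q - 1)))) ∧
      ∀ α : ℝ, 0 < α → α ∉ E → ∀ ε : ℝ, 0 < ε → ∀ A U : ℕ, ∃ η : ℝ, 0 < η ∧ ∀ᶠ N : ℕ in atTop,
        ∀ Q : Polynomial ℤ, Q.natDegree = q → 0 < Q.leadingCoeff → (∀ j, |((Q.coeff j : ℤ) : ℝ)| ≤ (N : ℝ) ^ η) →
          (exceptions ε A α Q N : ℝ) ≤ N / Real.log N ^ U := by
  classical
  choose m₀ hm₀ using fun e : ℕ => holds_of (1 / ((e : ℝ) + 1)) (by positivity)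
  obtain ⟨E, hE, h⟩ := exc_real (ι := ℕ × ℕ) q hq
    (fun i m => ∃ n ∈ Bd (m₀ i.1) (min (1 / ((i.1 : ℝ) + 1)) (1 / 2) / 4), |(n : ℝ) - m| ≤ Real.log m ^ (i.2 + 1))
    (fun i t => Good (1 / ((i.1 : ℝ) + 1)) i.2 t)
    (fun i U => near_count 1 (fun X => ⟨le_rfl, by simp⟩) (eng_windows (min (1 / ((i.1 : ℝ) + 1)) (1 / 2) / 4)
      (div_pos (lt_min (by positivity) (by norm_num)) (by norm_num)) 2 (m₀ i.1)) (i.2 + 1) U)
    (fun i => by
      obtain ⟨T, hT⟩ := near_floor 1 1 (by norm_num) i.2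
      refine ⟨T, fun t ht0 htT hX m hm he hd => ?_⟩
      have h1 := hT t ht0 htT m (by rw [mul_one]; exact hd)
      rw [mul_one] at h1
      by_contra hcon
      refine hX ⟨(m : ℤ), ⟨by exact_mod_cast hm, by exact_mod_cast he.two_dvd, fun h2 => hcon ?_⟩, by exact_mod_cast h1⟩
      rw [Int.toNat_natCast] at h2
      exact hm₀ i.1 m h2.1 h2.2)
  refine ⟨E, hE, fun α hα hαE ε hε A U => ?_⟩
  obtain ⟨e, he⟩ := exists_nat_one_div_lt hε
  obtain ⟨η, hη, h1⟩ := h α hα hαE (e, A) U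
  refine ⟨η, hη, ?_⟩
  filter_upwards [h1] with N g Q hdeg hlead hco
  refine le_trans (Nat.cast_le.2 (card_le_card fun k hk => ?_)) (g Q hdeg hlead hco)
  rw [mem_filter] at hk ⊢
  refine ⟨hk.1, fun h2 => hk.2 fun m hm hev hd n hn h5 h6 => ?_⟩
  obtain ⟨k1, k2⟩ := h2 m hm hev hd n hn h5 h6
  refine ⟨k1, k2.trans (mul_le_mul_of_nonneg_right he.le ?_)⟩
  have hs := Pool.Agent.W93.GB.one_le_sing m
  have : 0 ≤ sing m := by linarith
  positivity

end Pool.Agent.Results.MP_484fb8_nt.AlongRealMultiples
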