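import Pool.Agent.Q138.PS.XJ
import Pool.Agent.Results.MP_484fb8_nt.AlongRealMultiples

/-!
# Goldbach representations in primorial intervals: all the even numbers near `c n^j α^n`

For almost every real number `α > 1` the following holds: for all algebraic numbers `c > 0`, all integers `j`, all real `D`,
`κ`, all `ε > 0` and all large `n`, ALL the even numbers `m` with `|m - c n^j α^n| ≤ D n^κ` have the property of the question,
with the expected number of representations up to a relative error of `ε`.

Definitions used (in `Pool.Agent.H560R3.GB`): `C₂`: the twin prime constant `∏_{p > 2} (1 - 1 / (p - 1) ^ 2)`; `sing m`: the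
singular series `2 C₂ ∏_{p ∣ m, p > 2} (p - 1) / (p - 2)`.
-/

set_option autoImplicit false

namespace Pool.Agent.Results.MP_484fb8_nt.NearPowers

open Filter Finset Pool.Agent.H560R3.GB MeasureTheory
open Pool.Agent.Q138.PS
open Pool.Agent.Q259.AS (eng_windows)

/-- `#(n)`: the product of the first `n` primes. -/
noncomputable def P (n : ℕ) : ℕ := ∏ i ∈ range n, Nat.nth Nat.Prime i

/-- The number of primes `p` in the `n`-th primorial interval such that `m - p` is a prime which lies in the
`n`-th or in the `n + 1`-st primorial interval. -/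
noncomputable def R (n m : ℕ) : ℕ :=
  ((Icc (P (n - 1) + 1) (P n + 1)).filter
    (fun p => p.Prime ∧ (m - p).Prime ∧ P (n - 1) + 1 ≤ m - p ∧ m - p ≤ P (n + 1) + 1)).card

/-- If `m` belongs to the `n + 1`-st primorial interval (`n ≥ 1`), then `m = p + q` where `p` is a prime in the
`n`-th primorial interval and `q` is a prime in the `n`-th or in the `n + 1`-st one; moreover, up to a relative
error of at most `ε`, the number of these representations is `sing m * #(n) / log ^ 2 m`. -/
def Holds (ε : ℝ) (m : ℕ) : Prop :=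
  ∀ n : ℕ, 1 ≤ n → P n + 1 ≤ m → m ≤ P (n + 1) + 1 →
    (∃ p q : ℕ, p.Prime ∧ q.Prime ∧ m = p + q ∧ P (n - 1) + 1 ≤ p ∧ p ≤ P n + 1 ∧ P (n - 1) + 1 ≤ q ∧ q ≤ P (n + 1) + 1) ∧
    |(R n m : ℝ) - sing m * P n / Real.log m ^ 2| ≤ ε * (sing m * P n / Real.log m ^ 2)

/-- **Theorem.** For almost every real `α > 1`, all `ε > 0`, all algebraic numbers `c > 0`, all integers `j`, all real `D`, `κ`
and all large `n`: every positive even number `m` with `|m - c n^j α^n| ≤ D n^κ` has the property of the question, and the number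
of the representations is the expected one up to a relative error of `ε`. -/
theorem result : ∀ᵐ α : ℝ, 1 < α → ∀ ε : ℝ, 0 < ε → ∀ c : ℝ, 0 < c → IsAlgebraic ℚ c → ∀ (j : ℤ) (D κ : ℝ),
    ∀ᶠ n : ℕ in atTop, ∀ m : ℕ, 0 < m → Even m → ClosePow α c j D κ n m → Holds ε m := by
  classical
  choose m₀ hm₀ using fun e : ℕ => AlongRealMultiples.holds_of (1 / ((e : ℝ) + 1)) (by positivity)
  have h0 := pow_ae_none (fun e : ℕ => {m : ℕ | 1 ≤ m ∧ (m : ℤ) ∈ AlongRealMultiples.Bd (m₀ e)
      (min (1 / ((e : ℝ) + 1)) (1 / 2) / 4)}) (fun e U => eng_log 1 (fun X => ⟨le_rfl, by simp⟩)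
        (eng_windows (min (1 / ((e : ℝ) + 1)) (1 / 2) / 4)
          (div_pos (lt_min (by positivity) (by norm_num)) (by norm_num)) 2 (m₀ e)) U)
  filter_upwards [h0] with α h1 hα ε hε c hc hca j D κ
  obtain ⟨e, he⟩ := exists_nat_one_div_lt hε
  filter_upwards [h1 hα e c hc hca j D κ] with n hn m hm hev hd
  have h2 : AlongRealMultiples.Holds (1 / ((e : ℝ) + 1)) m := by
    by_contra hcon
    refine hn m hd ⟨hm, ⟨by exact_mod_cast hm, by exact_mod_cast hev.two_dvd, fun h2 => hcon ?_⟩⟩
    rw [Int.toNat_natCast] at h2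
    exact hm₀ e m h2.1 h2.2
  intro N hN h5 h6
  obtain ⟨k1, k2⟩ := h2 N hN h5 h6
  refine ⟨k1, ?_⟩
  have hPP : AlongRealMultiples.P N = P N := rfl
  have hRR : AlongRealMultiples.R N m = R N m := rfl
  rw [hPP, hRR] at k2
  refine k2.trans (mul_le_mul_of_nonneg_right he.le ?_)
  have hs := Pool.Agent.W93.GB.one_le_sing m
  have : 0 ≤ sing m := by linarith
  positivity

end Pool.Agent.Results.MP_484fb8_nt.NearPowers
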