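import Pool.Agent.Q259.AS.Mag3
import Pool.Agent.Q259.AS.Win
import Pool.Agent.W93.PG7

/-!
# Goldbach representations in primorial intervals: all long blocks of primorial digits of typical numbers

Definitions used (in `Pool.Agent.H560R3.GB`): `C₂`: the twin prime constant
`∏_{p > 2} (1 - 1 / (p - 1) ^ 2)`; `sing m`: the singular series `2 C₂ ∏_{p ∣ m, p > 2} (p - 1) / (p - 2)`.
`Pool.Agent.Q259.AS`: `SelfSim μ`: `μ` is a self-similar measure `μ = ∑ p i * (f i)_* μ` of finitely many maps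
`f i x = ρ i * x + t i` with `0 < |ρ i| < 1` and `p i > 0`, not all with the same fixed point (that is, `μ` is not a
point mass; overlaps are allowed and the ratios are arbitrary).
-/

set_option autoImplicit false

namespace Pool.Agent.Results.MP_484fb8_nt.PrimorialDigits

open MeasureTheory Filter Finset Pool.Agent.H560R3.GB Pool.Agent.Q259.AS

/-- `#(n)`: the product of the first `n` primes. -/
noncomputable def P (n : ℕ) : ℕ := ∏ i ∈ range n, Nat.nth Nat.Prime i

/-- The number of primes `p` in the `n`-th primorial interval such that `m - p` is a prime which lies in the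
`n`-th or in the `n + 1`-st primorial interval. -/
noncomputable def R (n m : ℕ) : ℕ :=
  ((Icc (P (n - 1) + 1) (P n + 1)).filter
    (fun p => p.Prime ∧ (m - p).Prime ∧ P (n - 1) + 1 ≤ m - p ∧ m - p ≤ P (n + 1) + 1)).card

/-- If `m` belongs to the `n + 1`-st primorial interval (`n ≥ 1`), then `m = p + q` where `p` is a prime in the
`n`-th primorial interval and `q` is a prime in the `n`-th or in the `n + 1`-st one; moreover, up to a relative
error of at most `ε`, the number of these representations is `sing m * #(n) / log ^ 2 m`. -/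
def Holds (ε : ℝ) (m : ℕ) : Prop :=
  ∀ n : ℕ, 1 ≤ n → P n + 1 ≤ m → m ≤ P (n + 1) + 1 →
    (∃ p q : ℕ, p.Prime ∧ q.Prime ∧ m = p + q ∧ P (n - 1) + 1 ≤ p ∧ p ≤ P n + 1 ∧ P (n - 1) + 1 ≤ q ∧ q ≤ P (n + 1) + 1) ∧
    |(R n m : ℝ) - sing m * P n / Real.log m ^ 2| ≤ ε * (sing m * P n / Real.log m ^ 2)

/-- The integer formed by the digits number `i + 1, ..., j` of the primorial expansion of `x`, i.e. of the expansion
`x = [x] + ∑ d l / #(l)` with `0 ≤ d l < p l`: the integer part of `#(j) / #(i)` times the fractional part of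
`#(i) x`. -/
noncomputable def block (x : ℝ) (i j : ℕ) : ℤ := ⌊((∏ l ∈ Ico i j, Nat.nth Nat.Prime l : ℕ) : ℝ) * Int.fract ((P i : ℝ) * x)⌋

lemma holds_of (ε : ℝ) (hε : 0 < ε) : ∃ m₀ : ℕ, ∀ m : ℕ, m₀ ≤ m →
    Pool.Agent.W93.PG.WinP (min ε (1 / 2) / 4) 2 m → Holds ε m := by
  obtain ⟨m₀, h0⟩ := Pool.Agent.W93.PG.reps_of_win (min ε (1 / 2)) (lt_min hε (by norm_num))
    ((min_le_right _ _).trans (by norm_num))
  refine ⟨m₀ + 3, ?_⟩
  intro m hm hwin n hn h2 h3
  have h4 := h0 m (by omega) hwin n hn h2 h3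
  have hm0 : (3 : ℝ) ≤ m := by exact_mod_cast (by omega : 3 ≤ m)
  have hlog : 0 < Real.log m := Real.log_pos (by linarith)
  have hs := Pool.Agent.W93.GB.one_le_sing m
  have hP : (0 : ℝ) < P n := by exact_mod_cast Pool.Agent.W93.PG.PR_pos n
  have hmain : 0 < sing m * P n / Real.log m ^ 2 := by positivity
  have hR : R n m = Pool.Agent.W93.PG.reps n m := rfl
  have hPR : Pool.Agent.W93.PG.PR n = P n := rfl
  rw [← hR, hPR] at h4
  have h5 : |(R n m : ℝ) - sing m * P n / Real.log m ^ 2| ≤ ε * (sing m * P n / Real.log m ^ 2) :=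
    h4.trans (mul_le_mul_of_nonneg_right (min_le_left _ _) hmain.le)
  have h6 : |(R n m : ℝ) - sing m * P n / Real.log m ^ 2| ≤ 1 / 2 * (sing m * P n / Real.log m ^ 2) :=
    h4.trans (mul_le_mul_of_nonneg_right (min_le_right _ _) hmain.le)
  refine ⟨?_, h5⟩
  have h7 : (0 : ℝ) < R n m := by
    rw [abs_le] at h6
    linarith [h6.1]
  have h8 : 0 < R n m := by exact_mod_cast h7
  unfold R at h8
  rw [card_pos] at h8
  obtain ⟨p, hp⟩ := h8
  rw [mem_filter, mem_Icc] at hp
  obtain ⟨⟨p1, p2⟩, p3, p4, p5, p6⟩ := hp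
  exact ⟨p, m - p, p3, p4, by have := p4.pos; omega, p1, p2, p5, p6⟩

/-- Let `μ` be a self-similar probability measure on the line which is not a point mass (for instance a Cantor measure
or a Bernoulli convolution). Then `μ`-almost every `x` has the following property. Let `ε > 0`, `δ > 0` and `A` be
arbitrary. For all large `j` and ALL the blocks formed by the digits number `i + 1, ..., j` of the primorial expansion
of `x` which have at least `j ^ δ` digits (in particular for all the integers `[#(j) {x}]` with `j` large), EVERY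
positive even integer `m` whose distance from the integer formed by these digits is at most `log ^ A (#(j) / #(i))` has
the property required in the problem: if `m` belongs to the `n + 1`-st primorial interval, it is a sum of a prime from
the `n`-th and a prime from the `n`-th or the `n + 1`-st primorial interval; and the number of these representations
is `sing m * #(n) / log ^ 2 m` up to a relative error of at most `ε`. -/
theorem result (μ : Measure ℝ) [IsProbabilityMeasure μ] (hμ : SelfSim μ) :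
    ∀ᵐ x ∂μ, ∀ ε δ : ℝ, 0 < ε → 0 < δ → ∀ A : ℕ, ∀ᶠ j : ℕ in atTop, ∀ i : ℕ, i ≤ j → (j : ℝ) ^ δ ≤ ((j - i : ℕ) : ℝ) →
      ∀ m : ℕ, 0 < m → Even m →
      |(m : ℝ) - block x i j| ≤ Real.log ((∏ l ∈ Ico i j, Nat.nth Nat.Prime l : ℕ) : ℝ) ^ A → Holds ε m := by
  classical
  have hr : ∀ l, 2 ≤ Nat.nth Nat.Prime l := fun l => (Nat.prime_nth_prime l).two_le
  choose m₀ hm₀ using fun e : ℕ => holds_of (1 / ((e : ℝ) + 1)) (by positivity)
  have h1 : ∀ e d A : ℕ, ∀ᵐ x ∂μ, ∀ᶠ j : ℕ in atTop,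
      ∀ i : ℕ, i ≤ j → (j : ℝ) ^ (1 / ((d : ℝ) + 1)) ≤ ((j - i : ℕ) : ℝ) → ∀ n ∈ {n : ℤ | 0 < n ∧ 2 ∣ n ∧
      ¬ (m₀ e ≤ n.toNat ∧ Pool.Agent.W93.PG.WinP (min (1 / ((e : ℝ) + 1)) (1 / 2) / 4) 2 n.toNat)},
      Real.log (rad (Nat.nth Nat.Prime) i j) ^ A <
        |(n : ℝ) - ⌊(rad (Nat.nth Nat.Prime) i j : ℝ) * Int.fract ((rad (Nat.nth Nat.Prime) 0 i : ℝ) * x)⌋| := by
    intro e d A
    exact as_radix (eng_windows (min (1 / ((e : ℝ) + 1)) (1 / 2) / 4)
      (div_pos (lt_min (by positivity) (by norm_num)) (by norm_num)) 2 (m₀ e)) μ hμ _ hr (1 / ((d : ℝ) + 1)) (by positivity) A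
  have h2 := ae_all_iff.2 (fun e => ae_all_iff.2 (fun d => ae_all_iff.2 (h1 e d)))
  filter_upwards [h2] with x hx ε δ hε hδ A
  obtain ⟨e, he⟩ := exists_nat_one_div_lt hε
  obtain ⟨d, hd⟩ := exists_nat_one_div_lt hδ
  filter_upwards [hx e d A, eventually_ge_atTop 1] with j hj hj1 i hi hij n hn hev hdist
  have hj1r : (1 : ℝ) ≤ j := by exact_mod_cast hj1
  have hij' : (j : ℝ) ^ (1 / ((d : ℝ) + 1)) ≤ ((j - i : ℕ) : ℝ) :=
    (Real.rpow_le_rpow_of_exponent_le hj1r hd.le).trans hij
  have hrad0 : rad (Nat.nth Nat.Prime) 0 i = P i := by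
    unfold rad P
    rw [Nat.Ico_zero_eq_range]
  have hbl : (⌊(rad (Nat.nth Nat.Prime) i j : ℝ) * Int.fract ((rad (Nat.nth Nat.Prime) 0 i : ℝ) * x)⌋ : ℤ) = block x i j := by
    unfold block
    rw [hrad0]
    rfl
  have hmain : Holds (1 / ((e : ℝ) + 1)) n := by
    by_contra hcon
    have h3 := hj i hi hij' (n : ℤ) ?_
    · rw [hbl] at h3
      have h4 : |(n : ℝ) - block x i j| ≤ Real.log (rad (Nat.nth Nat.Prime) i j) ^ A := hdist
      push_cast at h3
      linarith
    · refine ⟨by exact_mod_cast hn, by exact_mod_cast hev.two_dvd, fun h => hcon ?_⟩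
      rw [Int.toNat_natCast] at h
      exact hm₀ e n h.1 h.2
  intro n' hn' h5 h6
  obtain ⟨k1, k2⟩ := hmain n' hn' h5 h6
  refine ⟨k1, k2.trans (mul_le_mul_of_nonneg_right he.le ?_)⟩
  have hs := Pool.Agent.W93.GB.one_le_sing n
  have : 0 ≤ sing n := by linarith
  positivity

end Pool.Agent.Results.MP_484fb8_nt.PrimorialDigits
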