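import Pool.Agent.Q117.MG.Gmy

/-!
# MP_484fb8_nt: almost prime summands in primorial intervals, for every element, in every class to a growing modulus and in every short interval
-/

set_option autoImplicit false

namespace Pool.Agent.Results.MP_484fb8_nt.SummandsInEveryClass

open Finset
open Pool.Agent.Q117.LF (Ro)

/-- `#(n)`: the product of the first `n` primes -/
noncomputable def P (n : ℕ) : ℕ := ∏ i ∈ range n, Nat.nth Nat.Prime i

/-- `x` belongs to the `n`-th primorial interval -/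
def InI (n x : ℕ) : Prop := P (n - 1) + 1 ≤ x ∧ x ≤ P n + 1

/-- the numbers `q e`, `e ∈ E`, and `- m - q e`, `e ∈ E'` -/
def places (m q : ℕ) (E E' : Finset ℤ) : Finset ℤ := E.image (fun e => (q : ℤ) * e) ∪ E'.image (fun e => -(m : ℤ) - q * e)

/-- for every prime `p` not dividing `q` there is a translate of `E` without multiples of `p` -/
def Admissible (q : ℕ) (E : Finset ℤ) : Prop := ∀ p : ℕ, p.Prime → ¬ p ∣ q → ∃ r : ℤ, ∀ e ∈ E, ¬ (p : ℤ) ∣ r + e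

/-- the number of the residue classes modulo `p` met by `E` -/
noncomputable def omega (E : Finset ℤ) (p : ℕ) : ℕ := (E.image (fun e : ℤ => e % (p : ℤ))).card

/-- the product of `1 - omega / p` over the primes `p ≤ y` that do not divide `q` -/
noncomputable def dens (y q : ℕ) (E : Finset ℤ) : ℝ := ∏ p ∈ (Icc 1 y).filter (fun p : ℕ => p.Prime ∧ ¬ p ∣ q), (1 - (omega E p : ℝ) / p)

open Classical in
/-- the `x ≡ a (mod q)`, `A < x ≤ A + Y`, with `x` in the `n`-th and `m - x` in the `n`-th or `n + 1`-st primorial interval, `x` a product of at most `R` primes, all `≥ w`, the `x + q e` (`e ∈ E`) and the `m - x + q e` (`e ∈ E'`) without prime factors `≤ z`, the other `x + q s` and `m - x + q s`, `|s| ≤ L`, with a prime factor `≤ z`, and for `|s| ≤ L'` one of `x + q s`, `m - x - q s` with a prime factor `≤ z` unless `s ∈ E` and `- s ∈ E'` -/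
noncomputable def Good (n m q a : ℕ) (E E' : Finset ℤ) (R : ℕ) (w z L L' A Y : ℝ) : Finset ℕ :=
  (Icc 1 ⌊A + Y⌋₊).filter (fun x : ℕ => A < x ∧ x ≡ a [MOD q] ∧ x < m ∧ InI n x ∧ (InI n (m - x) ∨ InI (n + 1) (m - x)) ∧
    x.primeFactorsList.length ≤ R ∧ (∀ p : ℕ, p.Prime → p ∣ x → w ≤ p) ∧
    (∀ e ∈ E, Ro z ((x : ℤ) + q * e)) ∧ (∀ e ∈ E', Ro z ((m : ℤ) - x + q * e)) ∧
    (∀ s : ℤ, |(s : ℝ)| ≤ L → s ∉ E → ¬ Ro z ((x : ℤ) + q * s)) ∧ (∀ s : ℤ, |(s : ℝ)| ≤ L → s ∉ E' → ¬ Ro z ((m : ℤ) - x + q * s)) ∧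
    ∀ s : ℤ, |(s : ℝ)| ≤ L' → Ro z ((x : ℤ) + q * s) → Ro z ((m : ℤ) - x - q * s) → s ∈ E ∧ -s ∈ E')

lemma P_succ (n : ℕ) : P (n + 1) = P n * Nat.nth Nat.Prime n := prod_range_succ _ _

lemma P_pos (n : ℕ) : 1 ≤ P n := Nat.one_le_iff_ne_zero.2 (prod_ne_zero_iff.2 (fun i _ => (Nat.prime_nth_prime i).ne_zero))

lemma P_ge (n : ℕ) : 2 ^ n ≤ P n := by
  induction n with
  | zero => exact P_pos 0
  | succ n ih =>
    rw [P_succ, pow_succ]
    exact Nat.mul_le_mul ih (Nat.prime_nth_prime n).two_le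

lemma nth_succ_le (n : ℕ) : Nat.nth Nat.Prime (n + 1) ≤ 2 * Nat.nth Nat.Prime n := by
  obtain ⟨p, hp, h1, h2⟩ := Nat.exists_prime_lt_and_le_two_mul (Nat.nth Nat.Prime n) (Nat.prime_nth_prime n).ne_zero
  by_contra hcon
  push Not at hcon
  have h3 : p < Nat.nth Nat.Prime (n + 1) := by omega
  have h4 := Nat.le_nth_of_lt_nth_succ h3 hp
  omega

lemma P_sq {n : ℕ} (hn : 6 ≤ n) : 8 * (P (n + 1) + 1) ≤ P n ^ 2 := by
  obtain ⟨m, rfl⟩ : ∃ m, n = m + 1 := ⟨n - 1, by omega⟩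
  have h1 : P (m + 1 + 1) = P (m + 1) * Nat.nth Nat.Prime (m + 1) := P_succ _
  have h2 : P (m + 1) = P m * Nat.nth Nat.Prime m := P_succ _
  have h3 := nth_succ_le m
  have h4 : 32 ≤ P m := by
    calc 32 = 2 ^ 5 := by norm_num
      _ ≤ 2 ^ m := Nat.pow_le_pow_right (by norm_num) (by omega)
      _ ≤ P m := P_ge m
  have h5 : 1 ≤ P (m + 1) := P_pos _
  have h6 := (Nat.prime_nth_prime m).two_le
  have h7 : 16 * Nat.nth Nat.Prime (m + 1) ≤ P (m + 1) := by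
    rw [h2]
    calc 16 * Nat.nth Nat.Prime (m + 1) ≤ 16 * (2 * Nat.nth Nat.Prime m) := Nat.mul_le_mul_left _ h3
      _ = 32 * Nat.nth Nat.Prime m := by ring
      _ ≤ P m * Nat.nth Nat.Prime m := Nat.mul_le_mul_right _ h4
  have h8 : 32 ≤ P (m + 1) := by
    rw [h2]
    nlinarith
  rw [h1, sq]
  nlinarith

lemma P_mono : Monotone P := monotone_nat_of_le_succ (fun n => by
  rw [P_succ]
  exact Nat.le_mul_of_pos_right _ (Nat.prime_nth_prime n).pos)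

theorem result : ∀ (k R : ℕ) (η κ : ℝ), 1 ≤ R → 0 ≤ κ → η ≤ 1 → 25 < 3 * (8 * R - 1) * (η - κ) →
    ∃ t : ℕ, 1 ≤ t ∧ ∃ c : ℝ, 0 < c ∧ ∃ ν : ℝ, 0 < ν ∧ ∃ n0 : ℕ, ∀ n : ℕ, n0 ≤ n → ∀ m : ℕ, P n + 1 ≤ m → m ≤ P (n + 1) + 1 →
    ∀ q : ℕ, 1 ≤ q → (q : ℝ) ≤ (P n : ℝ) ^ κ → ∀ a : ℕ, a.Coprime q → IsCoprime ((m : ℤ) - a) q →
    ∀ E E' : Finset ℤ, E.card ≤ k → E'.card ≤ k → (∀ e ∈ E ∪ E', |(e : ℝ)| ≤ (P n : ℝ) / (4 * q)) → 0 ∈ E → 0 ∈ E' → Admissible q (places m q E E') →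
    ∀ A Y : ℝ, (P (n - 1) : ℝ) + 1 ≤ A → (P n : ℝ) ^ η ≤ Y → A + Y ≤ P n → A + Y + P (n - 1) + 1 ≤ m →
      c * (Y / q * dens (P n) q (places m q E E')) ≤
        ((Good n m q a E E' R ((P n : ℝ) ^ ((η - κ) / 7)) ((P n : ℝ) ^ (1 / (t : ℝ)))
          (ν * ((Nat.totient q : ℝ) / q * Real.log (P n))) (ν / dens (P n) q {0, (m : ℤ)}) A Y).card : ℝ) := by
  intro k R η κ hR hκ hη hc
  obtain ⟨t, ht, c, hc0, ν, hν, x0, hx0⟩ := Pool.Agent.Q117.MG.gmyC k R η κ hR hκ hη hc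
  obtain ⟨N1, hN1⟩ := exists_nat_ge x0
  refine ⟨t, ht, c, hc0, ν, hν, max N1 6, ?_⟩
  intro n hn m hm1 hm2 q hq hqn a ha ha' E E' hE hE' hEE h0 h0' hAd A Y hA hY hAY hm3
  rw [max_le_iff] at hn
  have hPn : n ≤ P n := (Nat.lt_two_pow_self).le.trans (P_ge n)
  have hPx : x0 ≤ (P n : ℝ) := by
    have h1 : (N1 : ℝ) ≤ P n := by exact_mod_cast hn.1.trans hPn
    linarith
  have hP1 : (1 : ℝ) ≤ P n := by exact_mod_cast P_pos n
  have hmn : ((P n : ℝ)) / 2 < m := by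
    have : (P n : ℝ) + 1 ≤ m := by exact_mod_cast hm1
    linarith
  have hmm : (m : ℝ) ≤ (P n : ℝ) ^ 2 / 8 := by
    have h1 := P_sq hn.2
    have h2 : 8 * m ≤ P n ^ 2 := by omega
    have h3 : 8 * (m : ℝ) ≤ (P n : ℝ) ^ 2 := by exact_mod_cast h2
    linarith
  have hA0 : 0 ≤ A := le_trans (by positivity) hA
  have hY0 : 0 < Y := lt_of_lt_of_le (by positivity) hY
  have key := hx0 (P n) hPx q hq hqn m hmn hmm a ha ha' E E' hE hE' hEE h0 h0' hAd A Y hA0 hY hAY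
  rw [Nat.floor_natCast] at key
  refine le_trans key (Nat.cast_le.2 (card_le_card ?_))
  intro x hx
  classical
  unfold Pool.Agent.Q117.MG.Gmy at hx
  unfold Good
  rw [mem_filter] at hx ⊢
  obtain ⟨h1, h2, h3, h4, h5, h6, h7, h8, h9, h10⟩ := hx
  rw [mem_Icc] at h1
  have hxle : (x : ℝ) ≤ A + Y := (Nat.le_floor_iff (by positivity)).1 h1.2
  have b1 : P (n - 1) + 1 ≤ x := by
    have : (P (n - 1) : ℝ) + 1 ≤ x := by linarith
    exact_mod_cast this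
  have b2 : x ≤ P n := by
    have : (x : ℝ) ≤ P n := by linarith
    exact_mod_cast this
  have b3 : x + P (n - 1) + 1 ≤ m := by
    have : (x : ℝ) + P (n - 1) + 1 ≤ m := by linarith
    exact_mod_cast this
  have b4 := P_mono (Nat.sub_le n 1)
  refine ⟨mem_Icc.2 h1, h2, h3, by omega, ⟨b1, by omega⟩, ?_, h4, h5, h6, h7, h8, h9, h10⟩
  by_cases hc : m - x ≤ P n + 1
  · left
    exact ⟨by omega, hc⟩
  · right
    refine ⟨?_, by omega⟩
    rw [Nat.add_sub_cancel]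
    omega

end Pool.Agent.Results.MP_484fb8_nt.SummandsInEveryClass
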